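import Mathlib

/-!
# Guessing lemma (entropy-free chain rule)

`fm Y f w` is the mean of `f` over the fibre of `Y` through `w`.
-/

open Finset

namespace Helper41.UD

variable {Ω : Type*} [Fintype Ω]

/-- Mean of `f` over the fibre of `Y` through `w`. -/
noncomputable def fm {α : Type*} (Y : Ω → α) (f : Ω → ℝ) (w : Ω) : ℝ := by
  classical
  exact (∑ v ∈ univ.filter (fun v => Y v = Y w), f v) /
    ((univ.filter (fun v => Y v = Y w)).card : ℝ)

/-- The sign of a bit. -/
def sg (b : Bool) : ℝ := if b then 1 else -1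

lemma abs_sg (b : Bool) : |sg b| = 1 := by
  cases b <;> simp [sg]

lemma sg_sq (b : Bool) : sg b * sg b = 1 := by
  cases b <;> simp [sg]

lemma fm_congr {α : Type*} (Y : Ω → α) (f : Ω → ℝ) {v w : Ω} (h : Y v = Y w) :
    fm Y f v = fm Y f w := by
  classical
  unfold fm
  rw [h]

lemma card_fibre_pos {α : Type*} [DecidableEq α] (Y : Ω → α) (w : Ω) :
    0 < (univ.filter (fun v => Y v = Y w)).card := by
  apply Finset.card_pos.2
  exact ⟨w, by simp⟩

lemma sum_fibrewise {α : Type*} [DecidableEq α] (Y : Ω → α) (g : Ω → ℝ) :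
    ∑ w, g w = ∑ y ∈ univ.image Y, ∑ w ∈ univ.filter (fun w => Y w = y), g w := by
  classical
  symm
  exact Finset.sum_fiberwise_of_maps_to (fun w _ => Finset.mem_image_of_mem Y (Finset.mem_univ w)) g

lemma fm_eq {α : Type*} [DecidableEq α] (Y : Ω → α) (f : Ω → ℝ) {w : Ω} {y : α} (h : Y w = y) :
    fm Y f w = (∑ v ∈ univ.filter (fun v => Y v = y), f v) /
      ((univ.filter (fun v => Y v = y)).card : ℝ) := by
  classical
  subst h
  unfold fm
  congr!

/-- Sum of the absolute fibre means = sum over the fibres of the absolute sums. -/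
lemma sum_abs_fm {α : Type*} [DecidableEq α] (Y : Ω → α) (f : Ω → ℝ) :
    ∑ w, |fm Y f w| = ∑ y ∈ univ.image Y, |∑ w ∈ univ.filter (fun w => Y w = y), f w| := by
  classical
  rw [sum_fibrewise Y (fun w => |fm Y f w|)]
  apply Finset.sum_congr rfl
  intro y hy
  obtain ⟨w0, -, hw0⟩ := Finset.mem_image.1 hy
  have hpos : 0 < (univ.filter (fun v => Y v = y)).card := by
    apply Finset.card_pos.2
    exact ⟨w0, by simp [hw0]⟩
  have hpos' : (0 : ℝ) < ((univ.filter (fun v => Y v = y)).card : ℝ) := by exact_mod_cast hpos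
  have : ∀ w ∈ univ.filter (fun w => Y w = y), |fm Y f w| =
      |∑ v ∈ univ.filter (fun v => Y v = y), f v| /
      ((univ.filter (fun v => Y v = y)).card : ℝ) := by
    intro w hw
    rw [fm_eq Y f (Finset.mem_filter.1 hw).2, abs_div, abs_of_pos hpos']
  rw [Finset.sum_congr rfl this, Finset.sum_const, nsmul_eq_mul]
  field_simp

/-- Transfer: passing to a finer map increases the total absolute bias. -/
theorem transfer {α α' : Type*} (Y : Ω → α) (Y' : Ω → α') (f : Ω → ℝ)
    (h : ∀ v w, Y' v = Y' w → Y v = Y w) :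
    ∑ w, |fm Y f w| ≤ ∑ w, |fm Y' f w| := by
  classical
  rw [sum_abs_fm, sum_abs_fm]
  -- each fibre of `Y` is a union of fibres of `Y'`
  have key : ∀ y ∈ univ.image Y, |∑ w ∈ univ.filter (fun w => Y w = y), f w| ≤
      ∑ z ∈ (univ.image Y').filter (fun z => ∃ w, Y' w = z ∧ Y w = y),
        |∑ w ∈ univ.filter (fun w => Y' w = z), f w| := by
    intro y _
    have h1 : ∑ w ∈ univ.filter (fun w => Y w = y), f w =
        ∑ z ∈ (univ.image Y').filter (fun z => ∃ w, Y' w = z ∧ Y w = y),
          ∑ w ∈ univ.filter (fun w => Y' w = z), f w := by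
      have h2 : ∀ w ∈ univ.filter (fun w => Y w = y),
          Y' w ∈ (univ.image Y').filter (fun z => ∃ w, Y' w = z ∧ Y w = y) := by
        intro w hw
        rw [Finset.mem_filter]
        exact ⟨Finset.mem_image_of_mem _ (Finset.mem_univ _), w, rfl, (Finset.mem_filter.1 hw).2⟩
      rw [← Finset.sum_fiberwise_of_maps_to h2]
      apply Finset.sum_congr rfl
      intro z hz
      obtain ⟨-, w0, hw0, hw0y⟩ := Finset.mem_filter.1 hz
      apply Finset.sum_congr _ (fun _ _ => rfl)
      ext w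
      simp only [Finset.mem_filter, Finset.mem_univ, true_and]
      constructor
      · rintro ⟨-, h3⟩; exact h3
      · intro h3
        refine ⟨?_, h3⟩
        rw [← hw0y]
        exact h w w0 (h3.trans hw0.symm)
    rw [h1]
    exact Finset.abs_sum_le_sum_abs _ _
  refine (Finset.sum_le_sum key).trans ?_
  rw [← Finset.sum_biUnion]
  · apply Finset.sum_le_sum_of_subset_of_nonneg
    · intro z hz
      simp only [Finset.mem_biUnion, Finset.mem_filter] at hz
      obtain ⟨_, _, h3, _⟩ := hz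
      exact h3
    · intro _ _ _; exact abs_nonneg _
  · intro y hy y' hy' hne
    rw [Function.onFun, Finset.disjoint_left]
    intro z hz hz'
    obtain ⟨-, w, hw, hwy⟩ := Finset.mem_filter.1 hz
    obtain ⟨-, w', hw', hwy'⟩ := Finset.mem_filter.1 hz'
    apply hne
    rw [← hwy, ← hwy']
    exact h w w' (hw.trans hw'.symm)

lemma abs_fm_le_one {α : Type*} (Y : Ω → α) (t : Ω → Bool) (w : Ω) :
    |fm Y (fun v => sg (t v)) w| ≤ 1 := by
  classical
  rw [fm_eq Y _ (rfl : Y w = Y w), abs_div]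
  have hpos := card_fibre_pos Y w
  have hpos' : (0 : ℝ) < ((univ.filter (fun v => Y v = Y w)).card : ℝ) := by exact_mod_cast hpos
  rw [abs_of_pos hpos', div_le_one hpos']
  refine (Finset.abs_sum_le_sum_abs _ _).trans ?_
  simp [abs_sg]

/-- One step of the supermartingale. -/
lemma step {α : Type*} (Y : Ω → α) (t : Ω → Bool) (q : Ω → Bool) (g : Ω → ℝ)
    (hq : ∀ v w, Y v = Y w → q v = q w) (hg : ∀ v w, Y v = Y w → g v = g w)
    (hg0 : ∀ w, 0 ≤ g w) :
    ∑ w, g w * (if q w = t w then 2 / (1 + |fm Y (fun v => sg (t v)) w|) else 0) ≤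
      ∑ w, g w := by
  classical
  rw [sum_fibrewise Y (fun w => g w * _), sum_fibrewise Y g]
  apply Finset.sum_le_sum
  intro y hy
  obtain ⟨w0, -, hw0⟩ := Finset.mem_image.1 hy
  set A := univ.filter (fun v => Y v = y) with hA
  have hw0A : w0 ∈ A := by simp [hA, hw0]
  have hpos : (0 : ℝ) < (A.card : ℝ) := by
    exact_mod_cast Finset.card_pos.2 ⟨w0, hw0A⟩
  set b := |fm Y (fun v => sg (t v)) w0| with hb
  have hb0 : 0 ≤ b := abs_nonneg _
  have hmem : ∀ w ∈ A, Y w = Y w0 := by
    intro w hw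
    rw [(Finset.mem_filter.1 hw).2, hw0]
  have e1 : ∀ w ∈ A, g w * (if q w = t w then 2 / (1 + |fm Y (fun v => sg (t v)) w|) else 0) =
      g w0 * (2 / (1 + b)) * (if q w0 = t w then 1 else 0) := by
    intro w hw
    rw [hg w w0 (hmem w hw), hq w w0 (hmem w hw), fm_congr Y _ (hmem w hw)]
    split_ifs <;> ring
  have e2 : ∀ w ∈ A, g w = g w0 := fun w hw => hg w w0 (hmem w hw)
  rw [Finset.sum_congr rfl e1, Finset.sum_congr rfl e2, ← Finset.mul_sum, Finset.sum_const,
    nsmul_eq_mul, mul_comm (A.card : ℝ)]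
  rw [mul_assoc]
  apply mul_le_mul_of_nonneg_left _ (hg0 w0)
  -- `n₊ * 2/(1+b) ≤ N`
  have e3 : ∀ w, (if q w0 = t w then (1 : ℝ) else 0) = (1 + sg (q w0) * sg (t w)) / 2 := by
    intro w
    cases q w0 <;> cases t w <;> simp [sg]
  have e4 : ∑ w ∈ A, (if q w0 = t w then (1 : ℝ) else 0) =
      ((A.card : ℝ) + sg (q w0) * ∑ w ∈ A, sg (t w)) / 2 := by
    rw [Finset.sum_congr rfl (fun w _ => e3 w), ← Finset.sum_div, Finset.sum_add_distrib,
      ← Finset.mul_sum]
    simp
  have e5 : sg (q w0) * ∑ w ∈ A, sg (t w) ≤ b * A.card := by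
    have h1 : b = |∑ w ∈ A, sg (t w)| / A.card := by
      rw [hb, fm_eq Y _ hw0, abs_div, abs_of_pos hpos]
    rw [h1, div_mul_cancel₀ _ hpos.ne']
    calc sg (q w0) * ∑ w ∈ A, sg (t w) ≤ |sg (q w0) * ∑ w ∈ A, sg (t w)| := le_abs_self _
      _ = |∑ w ∈ A, sg (t w)| := by rw [abs_mul, abs_sg, one_mul]
  rw [e4]
  have h1b : (0 : ℝ) < 1 + b := by linarith
  rw [div_mul_eq_mul_div, div_le_iff₀ h1b]
  nlinarith

/-- **Guessing lemma.** -/
theorem guess {Λ ι : Type*} [Fintype Λ] [Fintype ι] [LinearOrder ι] {𝒴 : ι → Type*}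
    (Y : ∀ r, Ω → 𝒴 r) (t : ι → Ω → Bool) (pred : ι → Λ → Ω → Bool)
    (hpred : ∀ r lam v w, Y r v = Y r w → pred r lam v = pred r lam w)
    (hY : ∀ r r', r < r' → ∀ v w, Y r' v = Y r' w → Y r v = Y r w)
    (ht : ∀ r r', r < r' → ∀ v w, Y r' v = Y r' w → t r v = t r w)
    (hex : ∀ w, ∃ lam, ∀ r, pred r lam w = t r w) :
    (2 : ℝ) ^ (Fintype.card ι) *
      ((Fintype.card Ω : ℝ) - ∑ r, ∑ w, |fm (Y r) (fun v => sg (t r v)) w|) ≤
      (Fintype.card Λ : ℝ) * Fintype.card Ω := by
  classical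
  set β : ι → Ω → ℝ := fun r w => |fm (Y r) (fun v => sg (t r v)) w| with hβ
  have hβ0 : ∀ r w, 0 ≤ β r w := fun r w => abs_nonneg _
  have hβc : ∀ r v w, Y r v = Y r w → β r v = β r w := by
    intro r v w h
    simp only [hβ]
    rw [fm_congr (Y r) _ h]
  -- the weights
  have main : ∀ s : Finset ι, ∀ lam : Λ,
      ∑ w, ∏ r ∈ s, (if pred r lam w = t r w then 2 / (1 + β r w) else 0) ≤
        (Fintype.card Ω : ℝ) := by
    intro s
    induction s using Finset.induction_on_max with
    | empty => intro lam; simp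
    | insert a s hs ih =>
      intro lam
      have ha : a ∉ s := fun h => lt_irrefl _ (hs a h)
      refine le_trans ?_ (ih lam)
      have hc : ∀ v w, Y a v = Y a w →
          (∏ r ∈ s, (if pred r lam v = t r v then 2 / (1 + β r v) else 0)) =
          ∏ r ∈ s, (if pred r lam w = t r w then 2 / (1 + β r w) else (0 : ℝ)) := by
        intro v w hvw
        apply Finset.prod_congr rfl
        intro r hr
        have hr' := hs r hr
        have hy := hY r a hr' v w hvw
        rw [hpred r lam v w hy, ht r a hr' v w hvw, hβc r v w hy]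
      have hn : ∀ w, 0 ≤ ∏ r ∈ s, (if pred r lam w = t r w then 2 / (1 + β r w) else (0 : ℝ)) := by
        intro w
        apply Finset.prod_nonneg
        intro r _
        split_ifs
        · have := hβ0 r w
          positivity
        · exact le_rfl
      have := step (Y a) (t a) (pred a lam)
        (fun w => ∏ r ∈ s, (if pred r lam w = t r w then 2 / (1 + β r w) else 0))
        (hpred a lam) hc hn
      refine le_trans (le_of_eq ?_) this
      apply Finset.sum_congr rfl
      intro w _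
      rw [Finset.prod_insert ha, mul_comm]
  -- upper bound
  have up : ∑ lam : Λ, ∑ w, ∏ r, (if pred r lam w = t r w then 2 / (1 + β r w) else (0 : ℝ)) ≤
      (Fintype.card Λ : ℝ) * Fintype.card Ω := by
    calc _ ≤ ∑ _lam : Λ, (Fintype.card Ω : ℝ) := Finset.sum_le_sum (fun lam _ => main univ lam)
      _ = _ := by simp
  rw [Finset.sum_comm] at up
  refine le_trans ?_ up
  -- lower bound
  have lo : ∀ w, (2 : ℝ) ^ (Fintype.card ι) * (1 - ∑ r, β r w) ≤
      ∑ lam : Λ, ∏ r, (if pred r lam w = t r w then 2 / (1 + β r w) else (0 : ℝ)) := by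
    intro w
    obtain ⟨lam, hlam⟩ := hex w
    have h1 : ∏ r, (if pred r lam w = t r w then 2 / (1 + β r w) else (0 : ℝ)) ≤
        ∑ lam : Λ, ∏ r, (if pred r lam w = t r w then 2 / (1 + β r w) else (0 : ℝ)) := by
      apply Finset.single_le_sum (f := fun lam =>
        ∏ r, (if pred r lam w = t r w then 2 / (1 + β r w) else (0 : ℝ))) _ (Finset.mem_univ lam)
      intro lam' _
      apply Finset.prod_nonneg
      intro r _
      split_ifs
      · have := hβ0 r w
        positivity
      · exact le_rfl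
    refine le_trans ?_ h1
    have h2 : ∏ r, (if pred r lam w = t r w then 2 / (1 + β r w) else (0 : ℝ)) =
        (2 : ℝ) ^ (Fintype.card ι) * (∏ r, (1 + β r w))⁻¹ := by
      rw [Finset.prod_congr rfl (fun r _ => by rw [if_pos (hlam r)])]
      rw [Finset.prod_div_distrib]
      simp [Finset.card_univ, div_eq_mul_inv]
    rw [h2]
    apply mul_le_mul_of_nonneg_left _ (by positivity)
    have h3 : ∏ r, (1 + β r w) ≤ Real.exp (∑ r, β r w) := by
      rw [Real.exp_sum]
      apply Finset.prod_le_prod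
      · intro r _; have := hβ0 r w; linarith
      · intro r _
        rw [add_comm]
        exact Real.add_one_le_exp _
    have h4 : 0 < ∏ r, (1 + β r w) := by
      apply Finset.prod_pos
      intro r _; have := hβ0 r w; linarith
    calc 1 - ∑ r, β r w ≤ Real.exp (-∑ r, β r w) := by
          have := Real.add_one_le_exp (-∑ r, β r w)
          linarith
      _ = (Real.exp (∑ r, β r w))⁻¹ := Real.exp_neg _
      _ ≤ _ := by
          apply inv_anti₀ h4 h3
  have e : (2 : ℝ) ^ (Fintype.card ι) * ((Fintype.card Ω : ℝ) - ∑ r, ∑ w, β r w) =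
      ∑ w : Ω, (2 : ℝ) ^ (Fintype.card ι) * (1 - ∑ r, β r w) := by
    rw [← Finset.mul_sum, Finset.sum_sub_distrib]
    congr 2
    · simp
    · exact Finset.sum_comm
  exact e.le.trans (Finset.sum_le_sum (fun w _ => lo w))

end Helper41.UD
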